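import Pool.Agent.H97.PK.Targets

set_option autoImplicit false

namespace Pool.Agent.H67.PK

open Pool.Agent.H97.PK MeasureTheory
open scoped ENNReal

lemma fub_left {d m : ℕ} (y : E d) (z : E m) (i : Fin d) : pr y z (Fin.castAdd m i) = y i := by
  show Fin.append (y : Fin d → ℝ) (z : Fin m → ℝ) (Fin.castAdd m i) = y i
  rw [Fin.append_left]

lemma fub_right {d m : ℕ} (y : E d) (z : E m) (i : Fin m) : pr y z (Fin.natAdd d i) = z i := by
  show Fin.append (y : Fin d → ℝ) (z : Fin m → ℝ) (Fin.natAdd d i) = z i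
  rw [Fin.append_right]

/-- `(y, z) ↦ pr y z` is measure preserving. -/
lemma fub_mp (a b : ℕ) : MeasurePreserving (fun q : E a × E b => pr q.1 q.2)
    (volume.prod volume) volume := by
  have h1 : MeasurePreserving
      (Prod.map (@WithLp.ofLp 2 (Fin a → ℝ)) (@WithLp.ofLp 2 (Fin b → ℝ)))
      ((volume : Measure (E a)).prod (volume : Measure (E b))) (volume.prod volume) :=
    (PiLp.volume_preserving_ofLp (Fin a)).prod (PiLp.volume_preserving_ofLp (Fin b))
  have h2 := volume_measurePreserving_sumPiEquivProdPi_symm (fun _ : Fin a ⊕ Fin b => ℝ)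
  have h3 := volume_measurePreserving_piCongrLeft (fun _ : Fin (a + b) => ℝ)
    (finSumFinEquiv : Fin a ⊕ Fin b ≃ Fin (a + b))
  have h4 := PiLp.volume_preserving_toLp (Fin (a + b))
  have h5 := h4.comp (h3.comp (h2.comp h1))
  have h6 : (fun q : E a × E b => pr q.1 q.2) =
      (@WithLp.toLp 2 (Fin (a + b) → ℝ)) ∘
        ((MeasurableEquiv.piCongrLeft (fun _ : Fin (a + b) => ℝ)
          (finSumFinEquiv : Fin a ⊕ Fin b ≃ Fin (a + b))) ∘
          ((MeasurableEquiv.sumPiEquivProdPi (fun _ : Fin a ⊕ Fin b => ℝ)).symm ∘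
            (Prod.map (@WithLp.ofLp 2 (Fin a → ℝ)) (@WithLp.ofLp 2 (Fin b → ℝ))))) := by
    funext q
    obtain ⟨y, z⟩ := q
    ext i
    refine Fin.addCases (fun j => ?_) (fun j => ?_) i
    · rw [fub_left]
      show y j = (Equiv.piCongrLeft (fun _ : Fin (a + b) => ℝ)
        (finSumFinEquiv : Fin a ⊕ Fin b ≃ Fin (a + b)))
        ((MeasurableEquiv.sumPiEquivProdPi (fun _ : Fin a ⊕ Fin b => ℝ)).symm
          (WithLp.ofLp y, WithLp.ofLp z)) (finSumFinEquiv (Sum.inl j))
      rw [Equiv.piCongrLeft_apply_apply]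
      rfl
    · rw [fub_right]
      show z j = (Equiv.piCongrLeft (fun _ : Fin (a + b) => ℝ)
        (finSumFinEquiv : Fin a ⊕ Fin b ≃ Fin (a + b)))
        ((MeasurableEquiv.sumPiEquivProdPi (fun _ : Fin a ⊕ Fin b => ℝ)).symm
          (WithLp.ofLp y, WithLp.ofLp z)) (finSumFinEquiv (Sum.inr j))
      rw [Equiv.piCongrLeft_apply_apply]
      rfl
  rw [h6]
  exact h5

theorem pf_fub : T_FUB := by
  intro d m
  constructor
  · intro F hF
    have h := fub_mp d m
    rw [← h.lintegral_comp hF]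
    exact lintegral_prod_symm (fun q : E d × E m => F (pr q.1 q.2))
      (hF.comp h.measurable).aemeasurable
  · intro y c z
    rw [EuclideanSpace.norm_sq_eq, EuclideanSpace.norm_sq_eq, EuclideanSpace.norm_sq_eq,
      Fin.sum_univ_add]
    congr 1
    · refine Finset.sum_congr rfl fun i _ => ?_
      rw [PiLp.sub_apply, PiLp.sub_apply, fub_left]
      unfold emb
      rw [fub_left]
    · refine Finset.sum_congr rfl fun i _ => ?_
      rw [PiLp.sub_apply, fub_right]
      unfold emb
      rw [fub_right, PiLp.zero_apply, sub_zero]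

end Pool.Agent.H67.PK
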