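import Pool.Agent.H63.PK.Targets

/-!
# Row BSR: dual bases over rings in which the torsion orders are invertible (helper67)
-/

set_option autoImplicit false

open Finset

namespace Pool.Agent.H67.PK

open Pool.Agent.H59.LIN Pool.Agent.H13.LN Pool.Agent.H63.PK

/-- structure of a finitely generated abelian group: coordinates and torsion -/
theorem fg_coord (A : Type) [AddCommGroup A] [AddGroup.FG A] :
    ∃ (r : ℕ) (ξ : Fin r → A →+ ℤ) (a : Fin r → A), (∀ i j, ξ i (a j) = if i = j then 1 else 0) ∧
      ∀ z : A, ∃ M : ℕ, 0 < M ∧ M • (z - ∑ i, ξ i z • a i) = 0 := by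
  classical
  obtain ⟨n, ι, _, p, hp, e, ⟨Θ⟩⟩ := AddCommGroup.equiv_free_prod_directSum_zmod A
  refine ⟨n, fun i => (Finsupp.applyAddHom i).comp ((AddMonoidHom.fst _ _).comp Θ.toAddMonoidHom),
    fun i => Θ.symm (Finsupp.single i 1, 0), ?_, ?_⟩
  · intro i j
    show ((Θ (Θ.symm (Finsupp.single j 1, 0))).1 : Fin n →₀ ℤ) i = _
    rw [AddEquiv.apply_symm_apply, Finsupp.single_apply]
    by_cases h : i = j
    · rw [if_pos h, if_pos h.symm]
    · rw [if_neg h, if_neg (fun h2 => h h2.symm)]
  · intro z
    refine ⟨∏ i, p i ^ e i, Finset.prod_pos fun i _ => pow_pos (hp i).pos _, ?_⟩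
    apply Θ.injective
    rw [map_nsmul, map_zero, map_sub, map_sum]
    have h1 : ∀ i : Fin n, Θ ((((Finsupp.applyAddHom i).comp
        ((AddMonoidHom.fst _ _).comp Θ.toAddMonoidHom)) z : ℤ) •
        Θ.symm (Finsupp.single i 1, 0)) = (Finsupp.single i ((Θ z).1 i), 0) := by
      intro i
      rw [map_zsmul, AddEquiv.apply_symm_apply]
      refine Prod.ext ?_ ?_
      · show ((Θ z).1 i) • (Finsupp.single i 1 : Fin n →₀ ℤ) = Finsupp.single i ((Θ z).1 i)
        rw [Finsupp.smul_single, smul_eq_mul, mul_one]
      · show ((Θ z).1 i) • (0 : DirectSum ι fun i => ZMod (p i ^ e i)) = 0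
        rw [smul_zero]
    rw [Finset.sum_congr rfl fun i _ => h1 i]
    refine Prod.ext ?_ ?_
    · have h2 : (∑ i : Fin n, ((Finsupp.single i ((Θ z).1 i) : Fin n →₀ ℤ),
          (0 : DirectSum ι fun i => ZMod (p i ^ e i)))).1 = (Θ z).1 := by
        rw [Prod.fst_sum]
        ext j
        rw [Finsupp.finsetSum_apply, Finset.sum_eq_single j]
        · rw [Finsupp.single_eq_same]
        · intro b _ hb
          rw [Finsupp.single_eq_of_ne (fun h => hb h.symm)]
        · intro h
          exact absurd (Finset.mem_univ j) h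
      rw [Prod.smul_fst, Prod.fst_sub, h2, sub_self, smul_zero]
      rfl
    · rw [Prod.smul_snd, Prod.snd_sub, Prod.snd_sum]
      rw [Finset.sum_const_zero, sub_zero]
      show _ = (0 : DirectSum ι fun i => ZMod (p i ^ e i))
      ext i
      have h3 : ((∏ i, p i ^ e i) • (Θ z).2) i = (∏ i, p i ^ e i) • ((Θ z).2 i) :=
        DFinsupp.smul_apply _ _ _
      rw [h3]
      obtain ⟨c, hc⟩ : p i ^ e i ∣ ∏ i, p i ^ e i := Finset.dvd_prod_of_mem _ (Finset.mem_univ i)
      rw [hc, mul_comm, mul_smul]
      have h4 : (p i ^ e i) • ((Θ z).2 i) = 0 := by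
        rw [nsmul_eq_mul]
        simp
      rw [h4, smul_zero]
      rfl

/-- the relations over `ℤ` give relations over `R` -/
theorem closure_rel (R : Type) [CommRing R] (d : ℕ) (w : GW d →₀ ℤ)
    (hw : w ∈ AddSubgroup.closure {x : GW d →₀ ℤ | RelP d x}) :
    w.mapRange (Int.cast : ℤ → R) Int.cast_zero ∈ RelM R d := by
  have hadd : ∀ u v : GW d →₀ ℤ, (u + v).mapRange (Int.cast : ℤ → R) Int.cast_zero =
      u.mapRange (Int.cast : ℤ → R) Int.cast_zero + v.mapRange (Int.cast : ℤ → R) Int.cast_zero :=
    fun u v => Finsupp.mapRange_add (hf := Int.cast_zero) (by intro a b; push_cast; rfl) u v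
  induction hw using AddSubgroup.closure_induction with
  | mem x hx => exact Submodule.subset_span ⟨x, hx, rfl⟩
  | zero =>
    rw [Finsupp.mapRange_zero]
    exact Submodule.zero_mem _
  | add u v _ _ hu hv =>
    rw [hadd]
    exact Submodule.add_mem _ hu hv
  | neg u _ hu =>
    have h1 : (-u).mapRange (Int.cast : ℤ → R) Int.cast_zero =
        -(u.mapRange (Int.cast : ℤ → R) Int.cast_zero) := by
      ext l
      simp
    rw [h1]
    exact Submodule.neg_mem _ hu

theorem bsr (hHMG : T_HMG) : T_BSR := by
  classical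
  intro R _ d hR
  obtain ⟨hfg, hB⟩ := hHMG d
  obtain ⟨r, ξ, a, hdual, htor⟩ := fg_coord (Ind d)
  obtain ⟨hB1, hB2⟩ := hB R
  choose W hW hWφ using fun i : Fin r => hB2 ((Int.castAddHom R).comp (ξ i))
  choose Y hY using fun i : Fin r => QuotientAddGroup.mk_surjective (a i)
  have hcast : ∀ u : GW d →₀ ℤ, ∀ i : Fin r,
      ((u.mapRange (Int.cast : ℤ → R) Int.cast_zero).sum fun l c => c * W i l.1) =
        ((ξ i (QuotientAddGroup.mk u) : ℤ) : R) := by
    intro u i
    rw [Finsupp.sum_mapRange_index (fun l => by rw [zero_mul])]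
    induction u using Finsupp.induction_linear with
    | zero =>
      rw [Finsupp.sum_zero_index]
      have : (QuotientAddGroup.mk (0 : GW d →₀ ℤ) : Ind d) = 0 := rfl
      rw [this, map_zero, Int.cast_zero]
    | add u v hu hv =>
      rw [Finsupp.sum_add_index' (fun l => by rw [Int.cast_zero, zero_mul])
        (fun l b c => by rw [Int.cast_add, add_mul]), hu, hv]
      have : (QuotientAddGroup.mk (u + v) : Ind d) =
        QuotientAddGroup.mk u + QuotientAddGroup.mk v := rfl
      rw [this, map_add, Int.cast_add]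
    | single l n =>
      rw [Finsupp.sum_single_index (by rw [Int.cast_zero, zero_mul])]
      have e1 : (Finsupp.single l n : GW d →₀ ℤ) = n • Finsupp.single l 1 := by
        rw [Finsupp.smul_single, smul_eq_mul, mul_one]
      have e2 : (QuotientAddGroup.mk (Finsupp.single l n) : Ind d) =
          n • (QuotientAddGroup.mk (Finsupp.single l 1) : Ind d) := by
        rw [e1]
        rfl
      rw [e2, map_zsmul, smul_eq_mul, Int.cast_mul]
      congr 1
      exact (hWφ i l).symm
  refine ⟨r, W, fun i => (Y i).mapRange (Int.cast : ℤ → R) Int.cast_zero, hW, ?_, ?_⟩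
  · intro i j
    rw [hcast (Y j) i, hY, hdual]
    split_ifs <;> simp
  · intro l
    set z : GW d →₀ ℤ := Finsupp.single l 1 -
      ∑ i, (ξ i (QuotientAddGroup.mk (Finsupp.single l 1))) • Y i with hz
    have hzR : z.mapRange (Int.cast : ℤ → R) Int.cast_zero = Finsupp.single l 1 -
        ∑ i, W i l.1 • (Y i).mapRange (Int.cast : ℤ → R) Int.cast_zero := by
      ext l'
      rw [Finsupp.mapRange_apply, hz, Finsupp.sub_apply, Finsupp.finsetSum_apply,
        Finsupp.sub_apply, Finsupp.finsetSum_apply, Int.cast_sub, Int.cast_sum]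
      congr 1
      · rw [Finsupp.single_apply, Finsupp.single_apply]
        split_ifs <;> simp
      · refine Finset.sum_congr rfl fun i _ => ?_
        rw [Finsupp.smul_apply, Finsupp.smul_apply, Finsupp.mapRange_apply, smul_eq_mul,
          smul_eq_mul, Int.cast_mul]
        congr 1
        exact hWφ i l
    rw [← hzR]
    have hzcls : (QuotientAddGroup.mk z : Ind d) = QuotientAddGroup.mk (Finsupp.single l 1) -
        ∑ i, ξ i (QuotientAddGroup.mk (Finsupp.single l 1)) • a i := by
      rw [hz]
      have h1 : ∀ u v : GW d →₀ ℤ, (QuotientAddGroup.mk (u - v) : Ind d) =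
        QuotientAddGroup.mk u - QuotientAddGroup.mk v := fun _ _ => rfl
      rw [h1]
      congr 1
      have h2 := map_sum (QuotientAddGroup.mk' (AddSubgroup.closure {x : GW d →₀ ℤ | RelP d x}))
        (fun i => (ξ i (QuotientAddGroup.mk (Finsupp.single l 1))) • Y i) Finset.univ
      refine h2.trans (Finset.sum_congr rfl fun i _ => ?_)
      rw [map_zsmul]
      congr 1
      exact hY i
    obtain ⟨M, hM, hMz⟩ := htor (QuotientAddGroup.mk (Finsupp.single l 1))
    rw [← hzcls] at hMz
    set m := addOrderOf (QuotientAddGroup.mk z : Ind d) with hm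
    have hm0 : 0 < m := by
      rw [hm, addOrderOf_pos_iff, isOfFinAddOrder_iff_nsmul_eq_zero]
      exact ⟨M, hM, hMz⟩
    have hunit : IsUnit (m : R) := by
      have key : ∀ k : ℕ, k ∣ m → 0 < k → IsUnit (k : R) := by
        intro k
        induction k using Nat.recOnMul with
        | zero => intro _ h; omega
        | one => intro _ _; rw [Nat.cast_one]; exact isUnit_one
        | prime q hq =>
          intro hqm _
          rcases hR q hq with h1 | h1
          · exact h1
          · exfalso
            obtain ⟨c, hc⟩ := hqm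
            have h2 : q • (c • (QuotientAddGroup.mk z : Ind d)) = 0 := by
              rw [smul_smul, ← hc, hm]
              exact addOrderOf_nsmul_eq_zero _
            have h3 := h1 _ h2
            have h4 : m ∣ c := addOrderOf_dvd_of_nsmul_eq_zero h3
            have hc0 : 0 < c := Nat.pos_of_ne_zero (by rintro rfl; omega)
            have h5 := Nat.le_of_dvd hc0 h4
            have h6 := hq.two_le
            nlinarith
        | mul a b ha hb =>
          intro hab h0
          rw [Nat.cast_mul]
          exact (ha (dvd_trans (dvd_mul_right a b) hab) (Nat.pos_of_mul_pos_right h0)).mul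
            (hb (dvd_trans (dvd_mul_left b a) hab) (Nat.pos_of_mul_pos_left h0))
      exact key m dvd_rfl hm0
    have h7 : m • z ∈ AddSubgroup.closure {x : GW d →₀ ℤ | RelP d x} := by
      rw [← QuotientAddGroup.eq_zero_iff]
      exact addOrderOf_nsmul_eq_zero (QuotientAddGroup.mk z : Ind d)
    have h8 := closure_rel R d _ h7
    have h9 : (m • z).mapRange (Int.cast : ℤ → R) Int.cast_zero =
        (m : R) • z.mapRange (Int.cast : ℤ → R) Int.cast_zero := by
      ext l'
      simp
    rw [h9] at h8
    obtain ⟨v, hv⟩ := hunit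
    rw [← hv] at h8
    have h10 := Submodule.smul_mem _ ((v⁻¹ : Rˣ) : R) h8
    rwa [smul_smul, Units.inv_mul, one_smul] at h10

end Pool.Agent.H67.PK
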