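import Pool.Agent.H63.PK.Targets
import Pool.Agent.H49.LNT.WSC
import Pool.Agent.H99.LNT.FGC

/-!
# Row HMG: primitive weight systems are homomorphisms (helper67)
-/

set_option autoImplicit false

open Finset

namespace Pool.Agent.H67.PK

open Pool.Agent.H59.LIN Pool.Agent.H13.LN Pool.Agent.H63.PK

theorem relP_le (d : ℕ) : AddSubgroup.closure {x : GW d →₀ ℤ | Rel d x} ≤
    AddSubgroup.closure {x : GW d →₀ ℤ | RelP d x} :=
  AddSubgroup.closure_mono fun x hx => RelP.rel x hx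

/-- the projection from the diagrams to the indecomposables -/
noncomputable def pr (d : ℕ) : Chd d →+ Ind d :=
  QuotientAddGroup.lift _ (QuotientAddGroup.mk' (AddSubgroup.closure {x : GW d →₀ ℤ | RelP d x}))
    (by
      intro x hx
      exact (QuotientAddGroup.eq_zero_iff x).2 (relP_le d hx))

theorem pr_mk (d : ℕ) (x : GW d →₀ ℤ) :
    pr d (QuotientAddGroup.mk x) = (QuotientAddGroup.mk x : Ind d) := rfl

theorem pr_surj (d : ℕ) : Function.Surjective (pr d) := by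
  intro y
  obtain ⟨x, rfl⟩ := QuotientAddGroup.mk_surjective y
  exact ⟨QuotientAddGroup.mk x, pr_mk d x⟩

theorem hmg : T_HMG := by
  intro d
  have hfg : AddGroup.FG (Chd d) := Pool.Agent.H99.LNT.fgc d
  refine ⟨AddGroup.fg_of_surjective (pr_surj d), ?_⟩
  intro B _
  obtain ⟨h1, h2⟩ := Pool.Agent.H49.LNT.wsc d B
  refine ⟨?_, ?_⟩
  · intro W hW
    obtain ⟨φ, hφ⟩ := h1 W hW.ws
    let ψ : (GW d →₀ ℤ) →+ B :=
      φ.comp (QuotientAddGroup.mk' (AddSubgroup.closure {x : GW d →₀ ℤ | Rel d x}))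
    have hψ : ∀ x : GW d →₀ ℤ, ψ x = φ (QuotientAddGroup.mk x) := fun _ => rfl
    have hker : AddSubgroup.closure {x : GW d →₀ ℤ | RelP d x} ≤ ψ.ker := by
      rw [AddSubgroup.closure_le]
      intro x hx
      show ψ x = 0
      rcases hx with ⟨_, hx⟩ | ⟨a, b, l, m, n, ha, hb, hn⟩
      · rw [hψ, show (QuotientAddGroup.mk x : Chd d) = 0 from
          (QuotientAddGroup.eq_zero_iff x).2 (AddSubgroup.subset_closure hx), map_zero]
      · rw [hψ, hφ n, hn]
        exact hW.prim a b l.1 m.1 ha hb l.2 m.2 (hn ▸ n.2)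
    refine ⟨QuotientAddGroup.lift _ ψ hker, fun l => ?_⟩
    exact (QuotientAddGroup.lift_mk _ hker _).trans (hφ l)
  · intro φ
    obtain ⟨W, hW, hφ⟩ := h2 (φ.comp (pr d))
    have h3 : ∀ l : GW d, φ (QuotientAddGroup.mk (Finsupp.single l 1)) = W l.1 := hφ
    refine ⟨W, ⟨hW, ?_⟩, h3⟩
    intro a b l m ha hb hl hm hlm
    have h4 := h3 ⟨l ++ m, hlm⟩
    rw [← h4, show (QuotientAddGroup.mk (Finsupp.single (⟨l ++ m, hlm⟩ : GW d) 1) : Ind d) = 0 from
      (QuotientAddGroup.eq_zero_iff _).2 (AddSubgroup.subset_closure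
        (RelP.prod a b ⟨l, hl⟩ ⟨m, hm⟩ _ ha hb rfl)), map_zero]

end Pool.Agent.H67.PK
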