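import Pool.Agent.H63.PK.Targets

/-!
# Row POL: polynomial algebras (helper67)
-/

set_option autoImplicit false

open Finset

namespace Pool.Agent.H67.PK

open Pool.Agent.H59.LIN Pool.Agent.H13.LN Pool.Agent.H63.PK

theorem pol (hALG : T_ALG) (hTHE : T_THE) (hISO : T_ISO) : T_POL := by
  intro R _ h
  obtain ⟨r, x, y, hD, hS, _⟩ := exDat R (fun _ => True) (fun d _ _ => h d)
  obtain ⟨_, _, _, _, _, htop⟩ := hALG R
  obtain ⟨Ψ, _, hΨ⟩ := hTHE R r x y hD
  have hspn : ∀ n, Spn R r x y n := fun n => hS n fun _ _ => trivial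
  have hinj : Function.Injective (Ph R y) := by
    intro a b hab
    refine hΨ.1 ?_
    show Ψ (Ph R y a) = Ψ (Ph R y b)
    rw [hab]
  have hsurj : Function.Surjective (Ph R y) := by
    have h1 := htop (LinearMap.range (Ph R y).toLinearMap) (by
      intro d z hz
      obtain ⟨f, hf⟩ := hISO R r x y d (hspn d) d le_rfl z hz
      exact ⟨f, hf⟩)
    intro z
    have h2 : z ∈ LinearMap.range (Ph R y).toLinearMap := by
      rw [h1]
      trivial
    obtain ⟨f, hf⟩ := h2
    exact ⟨f, hf⟩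
  refine ⟨r, AlgEquiv.ofBijective (Ph R y) ⟨hinj, hsurj⟩, ?_⟩
  intro d i
  have h3 : (AlgEquiv.ofBijective (Ph R y) ⟨hinj, hsurj⟩) (MvPolynomial.X ⟨d, i⟩) =
      ya R (y d i) := by
    show Ph R y (MvPolynomial.X ⟨d, i⟩) = _
    unfold Ph
    rw [MvPolynomial.aeval_X]
  rw [h3]
  unfold ya
  refine Submodule.sum_mem _ fun l _ => ?_
  exact Submodule.smul_mem _ _ (Submodule.subset_span ⟨l, rfl⟩)

end Pool.Agent.H67.PK
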