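import Pool.Agent.H97.PK.Targets

set_option autoImplicit false

namespace Pool.Agent.H67.PK

open Pool.Agent.H97.PK Finset Real

lemma bin_empty (n : ℕ) (x : ℝ) (N : Finset (Fin n)) :
    ∑ R : Finset (Fin n), x ^ R.card * (1 - x) ^ (n - R.card) *
      (if (R ∩ N).Nonempty then 0 else 1) = (1 - x) ^ N.card := by
  classical
  have h := Finset.prod_add (fun i : Fin n => if i ∈ N then (0 : ℝ) else x) (fun _ => 1 - x)
    (univ : Finset (Fin n))
  rw [powerset_univ] at h
  have hL : ∏ i : Fin n, ((if i ∈ N then (0 : ℝ) else x) + (1 - x)) = (1 - x) ^ N.card := by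
    rw [← prod_filter_mul_prod_filter_not univ (fun i => i ∈ N)]
    have e1 : ∏ i ∈ univ.filter (fun i => i ∈ N), ((if i ∈ N then (0 : ℝ) else x) + (1 - x)) =
        (1 - x) ^ N.card := by
      rw [prod_congr rfl (g := fun _ => 1 - x), prod_const]
      · congr 2
        ext i
        simp
      · intro i hi
        rw [if_pos (mem_filter.1 hi).2, zero_add]
    have e2 : ∏ i ∈ univ.filter (fun i => ¬ i ∈ N), ((if i ∈ N then (0 : ℝ) else x) + (1 - x)) =
        1 := by
      refine prod_eq_one fun i hi => ?_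
      rw [if_neg (mem_filter.1 hi).2]
      ring
    rw [e1, e2, mul_one]
  rw [← hL, h]
  refine sum_congr rfl fun R _ => ?_
  rw [prod_const, card_sdiff_of_subset (subset_univ R), card_univ, Fintype.card_fin]
  by_cases hR : (R ∩ N).Nonempty
  · rw [if_pos hR, mul_zero]
    obtain ⟨i, hi⟩ := hR
    rw [mem_inter] at hi
    have hz : ∏ a ∈ R, (if a ∈ N then (0 : ℝ) else x) = 0 := prod_eq_zero hi.1 (if_pos hi.2)
    rw [hz, zero_mul]
  · rw [if_neg hR, mul_one]
    congr 1
    rw [prod_congr rfl (g := fun _ => x), prod_const]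
    intro i hi
    rw [if_neg]
    intro hN
    exact hR ⟨i, mem_inter.2 ⟨hi, hN⟩⟩

theorem pf_bin : T_BIN := by
  classical
  intro n m hm N
  have hm0 : (0 : ℝ) < m := by exact_mod_cast hm
  have hm1 : (1 : ℝ) ≤ m := by exact_mod_cast hm
  have hx0 : 0 < 1 / (m : ℝ) := by positivity
  have hx1 : 1 / (m : ℝ) ≤ 1 := by rw [div_le_one hm0]; exact hm1
  have hmx : (m : ℝ) * (1 / (m : ℝ)) = 1 := by field_simp
  generalize 1 / (m : ℝ) = x at hx0 hx1 hmx ⊢
  have hS : ∑ R : Finset (Fin n), x ^ R.card * (1 - x) ^ (n - R.card) *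
      (if (R ∩ N).Nonempty then 1 else 0) = 1 - (1 - x) ^ N.card := by
    have h1 := bin_empty n x N
    have h2 := Fintype.sum_pow_mul_eq_add_pow (Fin n) x (1 - x)
    rw [Fintype.card_fin, add_sub_cancel, one_pow] at h2
    have h3 : ∑ R : Finset (Fin n), x ^ R.card * (1 - x) ^ (n - R.card) *
      (if (R ∩ N).Nonempty then 1 else 0) + ∑ R : Finset (Fin n), x ^ R.card *
      (1 - x) ^ (n - R.card) * (if (R ∩ N).Nonempty then 0 else 1) = 1 := by
      rw [← sum_add_distrib]
      refine Eq.trans (sum_congr rfl fun R _ => ?_) h2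
      split_ifs <;> ring
    rw [h1] at h3
    linarith
  rw [hS]
  set t := N.card with ht
  have h0 : (0 : ℝ) ≤ (1 - x) ^ t := pow_nonneg (by linarith) t
  have hB : 1 + (t : ℝ) * (-x) ≤ (1 + -x) ^ t := one_add_mul_le_pow (by linarith) t
  rw [← sub_eq_add_neg] at hB
  have hexp : (1 - x) ^ t ≤ exp (-(t * x)) := by
    have : 1 - x ≤ exp (-x) := by
      have := add_one_le_exp (-x)
      linarith
    calc (1 - x) ^ t ≤ (exp (-x)) ^ t := pow_le_pow_left₀ (by linarith) this t
      _ = exp (-(t * x)) := by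
          rw [← exp_nat_mul]
          congr 1
          ring
  constructor
  · refine le_min ?_ ?_
    · calc (m : ℝ) * (1 - (1 - x) ^ t) ≤ m * (t * x) := by
            refine mul_le_mul_of_nonneg_left ?_ hm0.le
            linarith
        _ = t * (m * x) := by ring
        _ = t := by rw [hmx, mul_one]
    · calc (m : ℝ) * (1 - (1 - x) ^ t) ≤ m * 1 :=
            mul_le_mul_of_nonneg_left (by linarith) hm0.le
        _ = m := mul_one _
  · rcases le_total (t : ℝ) m with h | h
    · rw [min_eq_left h]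
      have hu0 : 0 ≤ (t : ℝ) * x := by positivity
      have hu1 : (t : ℝ) * x ≤ 1 := by
        calc (t : ℝ) * x ≤ m * x := mul_le_mul_of_nonneg_right h hx0.le
          _ = 1 := hmx
      have hc := convexOn_exp.2 (Set.mem_univ (0 : ℝ)) (Set.mem_univ (-1 : ℝ))
        (show (0 : ℝ) ≤ 1 - (t : ℝ) * x by linarith) hu0 (by ring)
      simp only [smul_eq_mul, mul_zero, zero_add, exp_zero, mul_one, mul_neg] at hc
      have h2 : (t : ℝ) * x * (1 - exp (-1)) ≤ 1 - (1 - x) ^ t := by
        have := le_trans hexp hc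
        linarith
      calc (1 - exp (-1)) * (t : ℝ) = (m * x) * ((1 - exp (-1)) * t) := by rw [hmx, one_mul]
        _ = m * (t * x * (1 - exp (-1))) := by ring
        _ ≤ m * (1 - (1 - x) ^ t) := mul_le_mul_of_nonneg_left h2 hm0.le
    · rw [min_eq_right h, mul_comm (m : ℝ)]
      refine mul_le_mul_of_nonneg_right ?_ hm0.le
      have h2 : exp (-(t * x)) ≤ exp (-1) := by
        refine exp_le_exp.2 (neg_le_neg ?_)
        calc (1 : ℝ) = m * x := hmx.symm
          _ ≤ t * x := mul_le_mul_of_nonneg_right h hx0.le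
      linarith

end Pool.Agent.H67.PK
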