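import Mathlib

set_option autoImplicit false

/-!
The real Beta integral on `(0, X)`.
-/

namespace Pool.Agent.H67.PK

open MeasureTheory Set Real

lemma beta_cast {a b X s : ℝ} (hs0 : 0 ≤ s) (hs1 : s ≤ X) :
    (s : ℂ) ^ ((a : ℂ) - 1) * ((X : ℂ) - (s : ℂ)) ^ ((b : ℂ) - 1) =
      ((s ^ (a - 1) * (X - s) ^ (b - 1) : ℝ) : ℂ) := by
  have h2 : (0 : ℝ) ≤ X - s := by linarith
  rw [Complex.ofReal_mul, Complex.ofReal_cpow hs0, Complex.ofReal_cpow h2]
  push_cast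
  rfl

lemma beta_int {a b X : ℝ} (ha : 0 < a) (hb : 0 < b) (hX : 0 < X) :
    IntegrableOn (fun s : ℝ => s ^ (a - 1) * (X - s) ^ (b - 1)) (Ioc 0 X) := by
  have ha' : 0 < (a : ℂ).re := by simpa using ha
  have hb' : 0 < (b : ℂ).re := by simpa using hb
  have h0 := (Complex.betaIntegral_convergent ha' hb').norm
  have h1 : IntervalIntegrable (fun s : ℝ => s ^ (a - 1) * (1 - s) ^ (b - 1)) volume 0 1 := by
    refine h0.congr ?_
    intro s hs
    rw [uIoc_of_le zero_le_one] at hs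
    have h := beta_cast (a := a) (b := b) (X := 1) hs.1.le hs.2
    simp only [Complex.ofReal_one] at h
    simp only
    rw [h, Complex.norm_real]
    exact Real.norm_of_nonneg (mul_nonneg (rpow_nonneg hs.1.le _)
      (rpow_nonneg (by linarith [hs.2]) _))
  have h2 := h1.comp_mul_left (c := X⁻¹)
  rw [zero_div, div_inv_eq_mul, one_mul] at h2
  have h3 := h2.const_mul (X ^ (a - 1) * X ^ (b - 1))
  rw [← intervalIntegrable_iff_integrableOn_Ioc_of_le hX.le]
  refine h3.congr ?_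
  intro s hs
  rw [uIoc_of_le hX.le] at hs
  have e1 : X ^ (a - 1) * (X⁻¹ * s) ^ (a - 1) = s ^ (a - 1) := by
    rw [← mul_rpow hX.le (mul_nonneg (inv_nonneg.2 hX.le) hs.1.le), ← mul_assoc,
      mul_inv_cancel₀ hX.ne', one_mul]
  have hle : X⁻¹ * s ≤ 1 := by
    rw [inv_mul_le_iff₀ hX, mul_one]
    exact hs.2
  have e2 : X ^ (b - 1) * (1 - X⁻¹ * s) ^ (b - 1) = (X - s) ^ (b - 1) := by
    rw [← mul_rpow hX.le (by linarith), mul_sub, mul_one, ← mul_assoc, mul_inv_cancel₀ hX.ne',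
      one_mul]
  simp only
  rw [← e1, ← e2]
  ring

lemma beta_val {a b X : ℝ} (ha : 0 < a) (hb : 0 < b) (hX : 0 < X) :
    ∫ s in Ioc (0 : ℝ) X, s ^ (a - 1) * (X - s) ^ (b - 1) =
      X ^ (a + b - 1) * (Gamma a * Gamma b / Gamma (a + b)) := by
  have ha' : 0 < (a : ℂ).re := by simpa using ha
  have hb' : 0 < (b : ℂ).re := by simpa using hb
  have h1 := Complex.betaIntegral_scaled (a : ℂ) (b : ℂ) hX
  have h2 := Complex.Gamma_mul_Gamma_eq_betaIntegral ha' hb'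
  rw [← Complex.ofReal_add, Complex.Gamma_ofReal, Complex.Gamma_ofReal, Complex.Gamma_ofReal] at h2
  have hG : (Gamma (a + b) : ℂ) ≠ 0 := by
    exact_mod_cast (Gamma_pos_of_pos (add_pos ha hb)).ne'
  have h3 : Complex.betaIntegral a b = ((Gamma a * Gamma b / Gamma (a + b) : ℝ) : ℂ) := by
    rw [Complex.ofReal_div, Complex.ofReal_mul, h2, mul_div_cancel_left₀ _ hG]
  have h4 : ((∫ s in Ioc (0 : ℝ) X, s ^ (a - 1) * (X - s) ^ (b - 1) : ℝ) : ℂ) =
      ∫ s in (0 : ℝ)..X, (s : ℂ) ^ ((a : ℂ) - 1) * ((X : ℂ) - s) ^ ((b : ℂ) - 1) := by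
    rw [intervalIntegral.integral_of_le hX.le]
    refine Eq.trans (integral_ofReal (𝕜 := ℂ)).symm ?_
    refine setIntegral_congr_fun measurableSet_Ioc fun s hs => ?_
    exact (beta_cast hs.1.le hs.2).symm
  have h5 : ((X : ℂ)) ^ ((a : ℂ) + b - 1) = ((X ^ (a + b - 1) : ℝ) : ℂ) := by
    rw [Complex.ofReal_cpow hX.le]
    push_cast
    rfl
  rw [h1, h3, h5, ← Complex.ofReal_mul] at h4
  exact Complex.ofReal_injective h4

end Pool.Agent.H67.PK
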