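import Pool.Agent.H67.PK.NMG

set_option autoImplicit false

namespace Pool.Agent.H67.PK

open Pool.Agent.H97.PK MeasureTheory Set Real

/-- Taylor coefficients of `(1 - t)^(-1/2)`. -/
noncomputable def nmC : Fin 9 → ℝ :=
  ![1, 1 / 2, 3 / 8, 5 / 16, 35 / 128, 63 / 256, 231 / 1024, 429 / 2048, 6435 / 32768]

lemma nmC_sum (f : Fin 9 → ℝ) : ∑ k, nmC k * f k = f 0 + 1 / 2 * f 1 + 3 / 8 * f 2 +
    5 / 16 * f 3 + 35 / 128 * f 4 + 63 / 256 * f 5 + 231 / 1024 * f 6 + 429 / 2048 * f 7 +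
    6435 / 32768 * f 8 := by
  rw [Fin.sum_univ_castSucc, Fin.sum_univ_eight]
  simp [nmC]

lemma nmC_nonneg (k : Fin 9) : 0 ≤ nmC k := by
  fin_cases k <;> simp [nmC] <;> norm_num

lemma nm3_poly {t : ℝ} (ht : 0 ≤ t) : (1 - t) * (∑ k : Fin 9, nmC k * t ^ (k : ℕ)) ^ 2 ≤ 1 := by
  rw [nmC_sum (fun k => t ^ (k : ℕ))]
  have h : 1 - (1 - t) * ((fun k : Fin 9 => t ^ (k : ℕ)) 0 + 1 / 2 * (fun k : Fin 9 => t ^ (k : ℕ)) 1
      + 3 / 8 * (fun k : Fin 9 => t ^ (k : ℕ)) 2 +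
    5 / 16 * (fun k : Fin 9 => t ^ (k : ℕ)) 3 + 35 / 128 * (fun k : Fin 9 => t ^ (k : ℕ)) 4
    + 63 / 256 * (fun k : Fin 9 => t ^ (k : ℕ)) 5 + 231 / 1024 * (fun k : Fin 9 => t ^ (k : ℕ)) 6
    + 429 / 2048 * (fun k : Fin 9 => t ^ (k : ℕ)) 7 +
    6435 / 32768 * (fun k : Fin 9 => t ^ (k : ℕ)) 8) ^ 2 =
    12155 / 32768 * t ^ 9 + 21879 / 131072 * t ^ 10 + 29835 / 262144 * t ^ 11 +
    182325 / 2097152 * t ^ 12 + 294525 / 4194304 * t ^ 13 + 984555 / 16777216 * t ^ 14 +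
    1684683 / 33554432 * t ^ 15 + 46930455 / 1073741824 * t ^ 16 +
    41409225 / 1073741824 * t ^ 17 := by
    have e0 : ((0 : Fin 9) : ℕ) = 0 := rfl
    have e1 : ((1 : Fin 9) : ℕ) = 1 := rfl
    have e2 : ((2 : Fin 9) : ℕ) = 2 := rfl
    have e3 : ((3 : Fin 9) : ℕ) = 3 := rfl
    have e4 : ((4 : Fin 9) : ℕ) = 4 := rfl
    have e5 : ((5 : Fin 9) : ℕ) = 5 := rfl
    have e6 : ((6 : Fin 9) : ℕ) = 6 := rfl
    have e7 : ((7 : Fin 9) : ℕ) = 7 := rfl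
    have e8 : ((8 : Fin 9) : ℕ) = 8 := rfl
    simp only [e0, e1, e2, e3, e4, e5, e6, e7, e8]
    ring
  have h2 : (0 : ℝ) ≤ 12155 / 32768 * t ^ 9 + 21879 / 131072 * t ^ 10 + 29835 / 262144 * t ^ 11 +
    182325 / 2097152 * t ^ 12 + 294525 / 4194304 * t ^ 13 + 984555 / 16777216 * t ^ 14 +
    1684683 / 33554432 * t ^ 15 + 46930455 / 1073741824 * t ^ 16 +
    41409225 / 1073741824 * t ^ 17 := by positivity
  linarith

/-- Pointwise lower bound. -/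
lemma nm3_pt {X s : ℝ} (hs : 0 < s) (hsX : s < X) :
    ∑ k : Fin 9, (nmC k * X⁻¹ ^ (k : ℕ) / √X) * s ^ ((3 / 2 : ℝ) + (k : ℕ)) ≤
      s ^ (3 / 2 : ℝ) * (X - s) ^ ((1 : ℝ) / 2 - 1) := by
  have hX : 0 < X := hs.trans hsX
  have hd : 0 < X - s := by linarith
  have h1 : ∑ k : Fin 9, (nmC k * X⁻¹ ^ (k : ℕ) / √X) * s ^ ((3 / 2 : ℝ) + (k : ℕ)) =
      s ^ (3 / 2 : ℝ) * ((∑ k : Fin 9, nmC k * (X⁻¹ * s) ^ (k : ℕ)) / √X) := by
    rw [Finset.sum_div, Finset.mul_sum]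
    refine Finset.sum_congr rfl fun k _ => ?_
    rw [rpow_add hs, rpow_natCast, mul_pow]
    ring
  rw [h1]
  refine mul_le_mul_of_nonneg_left ?_ (rpow_nonneg hs.le _)
  have e : ((1 : ℝ) / 2 - 1) = -(1 / 2) := by norm_num
  rw [e, rpow_neg hd.le, ← sqrt_eq_rpow, ← one_div (√(X - s)), div_le_div_iff₀ (sqrt_pos.2 hX)
    (sqrt_pos.2 hd), one_mul]
  have ht : 0 ≤ X⁻¹ * s := mul_nonneg (inv_nonneg.2 hX.le) hs.le
  have hp := nm3_poly ht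
  set P := ∑ k : Fin 9, nmC k * (X⁻¹ * s) ^ (k : ℕ) with hP
  have hP0 : 0 ≤ P := Finset.sum_nonneg fun k _ => mul_nonneg (nmC_nonneg k) (pow_nonneg ht _)
  have e2 : P * √(X - s) = √((X - s) * P ^ 2) := by
    rw [sqrt_mul hd.le, sqrt_sq hP0, mul_comm]
  rw [e2]
  refine sqrt_le_sqrt ?_
  have e3 : (X - s) * P ^ 2 = X * ((1 - X⁻¹ * s) * P ^ 2) := by
    have : X - s = X * (1 - X⁻¹ * s) := by
      rw [mul_sub, mul_one, ← mul_assoc, mul_inv_cancel₀ hX.ne', one_mul]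
    rw [this]
    ring
  rw [e3]
  exact mul_le_of_le_one_right hX.le hp

/-- Lower bound of the middle integral. -/
lemma nm3_low {X : ℝ} (hX : 1 < X) :
    (∑ k : Fin 9, nmC k * (X⁻¹ ^ (k : ℕ) / ((k : ℕ) + 5 / 2))) / √X + 2 * √(X - 1) ≤
      ∫ s in Ioc (0 : ℝ) X, min 1 (s ^ (3 / 2 : ℝ)) * (X - s) ^ ((1 : ℝ) / 2 - 1) := by
  have hX0 : 0 < X := by linarith
  have hint := nmg_low_int (α := 1 / 2) (X := X) (y := 3 / 2) (by norm_num) hX0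
  have hsplit : Ioc (0 : ℝ) X = Ioc 0 1 ∪ Ioc 1 X :=
    (Ioc_union_Ioc_eq_Ioc zero_le_one hX.le).symm
  have hdisj : Disjoint (Ioc (0 : ℝ) 1) (Ioc 1 X) := by
    rw [Set.disjoint_left]
    intro a ha hb
    exact absurd hb.1 (not_lt.2 ha.2)
  have hi1 := hint.mono_set (Ioc_subset_Ioc_right hX.le : Ioc (0 : ℝ) 1 ⊆ Ioc 0 X)
  have hi2 := hint.mono_set (Ioc_subset_Ioc_left zero_le_one : Ioc (1 : ℝ) X ⊆ Ioc 0 X)
  rw [hsplit, setIntegral_union hdisj measurableSet_Ioc hi1 hi2]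
  refine add_le_add ?_ (le_of_eq ?_)
  · -- the series
    have hk : ∀ k : Fin 9, (-1 : ℝ) < 3 / 2 + ((k : ℕ) : ℝ) := by
      intro k
      have : (0 : ℝ) ≤ ((k : ℕ) : ℝ) := Nat.cast_nonneg _
      linarith
    have hterm : ∀ k : Fin 9, IntegrableOn (fun s : ℝ => (nmC k * X⁻¹ ^ (k : ℕ) / √X) *
        s ^ ((3 / 2 : ℝ) + (k : ℕ))) (Ioc 0 1) := by
      intro k
      have h := (intervalIntegral.intervalIntegrable_rpow' (a := 0) (b := 1)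
        (r := (3 / 2 : ℝ) + (k : ℕ)) (hk k)).const_mul
          (nmC k * X⁻¹ ^ (k : ℕ) / √X)
      rwa [intervalIntegrable_iff_integrableOn_Ioc_of_le zero_le_one] at h
    have h1 : ∫ s in Ioc (0 : ℝ) 1, ∑ k : Fin 9, (nmC k * X⁻¹ ^ (k : ℕ) / √X) *
        s ^ ((3 / 2 : ℝ) + (k : ℕ)) ≤
        ∫ s in Ioc (0 : ℝ) 1, min 1 (s ^ (3 / 2 : ℝ)) * (X - s) ^ ((1 : ℝ) / 2 - 1) := by
      refine setIntegral_mono_on (integrable_finsetSum _ fun k _ => hterm k) hi1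
        measurableSet_Ioc fun s hs => ?_
      rw [min_eq_right (rpow_le_one hs.1.le hs.2 (by norm_num))]
      exact nm3_pt hs.1 (lt_of_le_of_lt hs.2 hX)
    refine le_trans (le_of_eq ?_) h1
    rw [integral_finsetSum _ fun k _ => hterm k, Finset.sum_div]
    refine Finset.sum_congr rfl fun k _ => ?_
    rw [integral_const_mul, ← intervalIntegral.integral_of_le zero_le_one,
      integral_rpow (Or.inl (hk k)), one_rpow,
      zero_rpow (by positivity)]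
    have : (3 / 2 : ℝ) + (k : ℕ) + 1 = (k : ℕ) + 5 / 2 := by ring
    rw [this]
    ring
  · have h2 : ∫ s in Ioc (1 : ℝ) X, min 1 (s ^ (3 / 2 : ℝ)) * (X - s) ^ ((1 : ℝ) / 2 - 1) =
        ∫ s in Ioc (1 : ℝ) X, (X - s) ^ ((1 : ℝ) / 2 - 1) := by
      refine setIntegral_congr_fun measurableSet_Ioc fun s hs => ?_
      rw [min_eq_left (one_le_rpow hs.1.le (by norm_num)), one_mul]
    rw [h2, ← intervalIntegral.integral_of_le hX.le]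
    have h3 := intervalIntegral.integral_comp_sub_left (a := 1) (b := X)
      (fun u : ℝ => u ^ ((1 : ℝ) / 2 - 1)) X
    rw [h3, integral_rpow (Or.inl (by norm_num)), sub_self, sub_add_cancel,
      zero_rpow (by norm_num), sub_zero, ← sqrt_eq_rpow]
    ring

theorem pf_nm3 : T_NM3 := by
  unfold T_NM3
  have e1 : (((1 : ℕ) : ℝ) / 2 - 1) = (1 : ℝ) / 2 - 1 := by norm_num
  have e3 : (((3 : ℕ) : ℝ) / 2) = 3 / 2 := by norm_num
  rw [e1, e3]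
  have hL := nm3_low (X := 1423 / 1000) (by norm_num)
  set H := ∫ s in Ioc (0 : ℝ) (1423 / 1000), min 1 (s ^ (3 / 2 : ℝ)) *
    (1423 / 1000 - s) ^ ((1 : ℝ) / 2 - 1) with hH
  have h0 := (nmg_one (α := 1 / 2) (X := 1423 / 1000) (by norm_num) (by norm_num)).2
  have hB := beta_val (a := 5 / 2) (b := 1 / 2) (X := 1423 / 1000) (by norm_num) (by norm_num)
    (by norm_num)
  have e5 : (5 / 2 : ℝ) - 1 = 3 / 2 := by norm_num
  have e6 : (5 / 2 : ℝ) + 1 / 2 - 1 = 2 := by norm_num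
  have e7 : (5 / 2 : ℝ) + 1 / 2 = 3 := by norm_num
  rw [e6, e7, e5] at hB
  have hG3 : Gamma 3 = 2 := by
    have h : (3 : ℝ) = ((2 : ℕ) : ℝ) + 1 := by norm_num
    rw [h, Real.Gamma_nat_eq_factorial]
    norm_num [Nat.factorial]
  have hG5 : Gamma (5 / 2) = 3 / 4 * √π := by
    have h1 := Real.Gamma_add_one (s := 3 / 2) (by norm_num)
    have h2 := Real.Gamma_add_one (s := 1 / 2) (by norm_num)
    have e8 : (3 / 2 : ℝ) + 1 = 5 / 2 := by norm_num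
    have e9 : (1 / 2 : ℝ) + 1 = 3 / 2 := by norm_num
    rw [e8] at h1
    rw [e9, Real.Gamma_one_half_eq] at h2
    rw [h1, h2]
    ring
  have hpi : √π * √π = π := mul_self_sqrt pi_pos.le
  have hB' : ∫ s in Ioc (0 : ℝ) (1423 / 1000), s ^ (3 / 2 : ℝ) *
      (1423 / 1000 - s) ^ ((1 : ℝ) / 2 - 1) = (1423 / 1000) ^ 2 * (3 * π / 8) := by
    rw [hB, hG3, hG5, Real.Gamma_one_half_eq, rpow_two]
    calc (1423 / 1000 : ℝ) ^ 2 * (3 / 4 * √π * √π / 2) =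
        (1423 / 1000 : ℝ) ^ 2 * (3 * (√π * √π) / 8) := by ring
      _ = _ := by rw [hpi]
  have h0' : ∫ s in Ioc (0 : ℝ) (1423 / 1000), (1 : ℝ) * (1423 / 1000 - s) ^ ((1 : ℝ) / 2 - 1) =
      2 * √(1423 / 1000) := by
    simp only [one_mul]
    rw [h0, ← sqrt_eq_rpow]
    ring
  rw [h0', hB']
  rw [nmC_sum (fun k => (1423 / 1000 : ℝ)⁻¹ ^ (k : ℕ) / ((k : ℕ) + 5 / 2))] at hL
  have f0 : ((0 : Fin 9) : ℕ) = 0 := rfl
  have f1 : ((1 : Fin 9) : ℕ) = 1 := rfl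
  have f2 : ((2 : Fin 9) : ℕ) = 2 := rfl
  have f3 : ((3 : Fin 9) : ℕ) = 3 := rfl
  have f4 : ((4 : Fin 9) : ℕ) = 4 := rfl
  have f5 : ((5 : Fin 9) : ℕ) = 5 := rfl
  have f6 : ((6 : Fin 9) : ℕ) = 6 := rfl
  have f7 : ((7 : Fin 9) : ℕ) = 7 := rfl
  have f8 : ((8 : Fin 9) : ℕ) = 8 := rfl
  simp only [f0, f1, f2, f3, f4, f5, f6, f7, f8] at hL
  have hy1 : (119289 / 100000 : ℝ) ≤ √(1423 / 1000) := by
    rw [le_sqrt' (by norm_num)]
    norm_num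
  have hy2 : √(1423 / 1000) ≤ (1192897 / 1000000 : ℝ) := by
    rw [sqrt_le_left (by norm_num)]
    norm_num
  have hz : (650384 / 1000000 : ℝ) ≤ √(1423 / 1000 - 1) := by
    rw [le_sqrt' (by norm_num)]
    norm_num
  have hy0 : (0 : ℝ) < √(1423 / 1000) := lt_of_lt_of_le (by norm_num) hy1
  have hyy : √(1423 / 1000) * √(1423 / 1000) = (1423 / 1000 : ℝ) :=
    mul_self_sqrt (by norm_num)
  -- the sum
  have hS : (58332 / 100000 : ℝ) ≤ (1423 / 1000 : ℝ)⁻¹ ^ 0 / (((0 : ℕ) : ℝ) + 5 / 2) +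
      1 / 2 * ((1423 / 1000 : ℝ)⁻¹ ^ 1 / (((1 : ℕ) : ℝ) + 5 / 2)) +
      3 / 8 * ((1423 / 1000 : ℝ)⁻¹ ^ 2 / (((2 : ℕ) : ℝ) + 5 / 2)) +
      5 / 16 * ((1423 / 1000 : ℝ)⁻¹ ^ 3 / (((3 : ℕ) : ℝ) + 5 / 2)) +
      35 / 128 * ((1423 / 1000 : ℝ)⁻¹ ^ 4 / (((4 : ℕ) : ℝ) + 5 / 2)) +
      63 / 256 * ((1423 / 1000 : ℝ)⁻¹ ^ 5 / (((5 : ℕ) : ℝ) + 5 / 2)) +
      231 / 1024 * ((1423 / 1000 : ℝ)⁻¹ ^ 6 / (((6 : ℕ) : ℝ) + 5 / 2)) +
      429 / 2048 * ((1423 / 1000 : ℝ)⁻¹ ^ 7 / (((7 : ℕ) : ℝ) + 5 / 2)) +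
      6435 / 32768 * ((1423 / 1000 : ℝ)⁻¹ ^ 8 / (((8 : ℕ) : ℝ) + 5 / 2)) := by
    norm_num
  have hL2 : (58332 / 100000 : ℝ) / √(1423 / 1000) + 2 * √(1423 / 1000 - 1) ≤ H :=
    le_trans (add_le_add_left (div_le_div_of_nonneg_right hS hy0.le) _) hL
  set y := √(1423 / 1000) with hy
  set z := √(1423 / 1000 - 1) with hzd
  constructor
  · have h1 : 2 * y ≤ 4 / 3 * ((58332 / 100000 : ℝ) / y + 2 * z) := by
      have h2 : 2 * y * y ≤ 4 / 3 * (58332 / 100000 + 2 * z * y) := by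
        have h3 : (650384 / 1000000 : ℝ) * (119289 / 100000) ≤ z * y :=
          mul_le_mul hz hy1 (by norm_num) (le_trans (by norm_num) hz)
        have h4 : 2 * y * y = 2 * (1423 / 1000 : ℝ) := by rw [mul_assoc, hyy]
        rw [h4]
        nlinarith
      have h5 : 4 / 3 * ((58332 / 100000 : ℝ) / y + 2 * z) =
          (4 / 3 * (58332 / 100000 + 2 * z * y)) / y := by
        field_simp
      rw [h5, le_div_iff₀ hy0]
      exact h2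
    exact le_trans h1 (mul_le_mul_of_nonneg_left hL2 (by norm_num))
  · have h1 : (1423 / 1000 : ℝ) ^ 2 * (3 * π / 8) ≤ 4 / 3 * ((58332 / 100000 : ℝ) / y + 2 * z) := by
      have h2 : (58332 / 100000 : ℝ) / (1192897 / 1000000) ≤ (58332 / 100000 : ℝ) / y :=
        div_le_div_of_nonneg_left (by norm_num) hy0 hy2
      have h3 := pi_lt_d4
      have h4 : (48898 / 100000 : ℝ) ≤ (58332 / 100000 : ℝ) / (1192897 / 1000000) := by norm_num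
      nlinarith
    exact le_trans h1 (mul_le_mul_of_nonneg_left hL2 (by norm_num))

end Pool.Agent.H67.PK
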