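import Pool.Agent.H97.PK.Targets2
import Pool.Agent.H67.PK.Beta

set_option autoImplicit false

namespace Pool.Agent.H67.PK

open Pool.Agent.H97.PK MeasureTheory Set Real

lemma nmg_one {α X : ℝ} (hα : 0 < α) (hX : 0 < X) :
    IntegrableOn (fun s : ℝ => (X - s) ^ (α - 1)) (Ioc 0 X) ∧
      ∫ s in Ioc (0 : ℝ) X, (X - s) ^ (α - 1) = X ^ α / α := by
  have h1 := beta_int (a := 1) (b := α) one_pos hα hX
  have h2 := beta_val (a := 1) (b := α) one_pos hα hX
  simp only [sub_self, rpow_zero, one_mul] at h1 h2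
  refine ⟨h1, ?_⟩
  rw [h2, Real.Gamma_one, one_mul, add_sub_cancel_left, add_comm 1 α, Real.Gamma_add_one hα.ne']
  have : Gamma α ≠ 0 := (Gamma_pos_of_pos hα).ne'
  field_simp

lemma nmg_low_int {α X y : ℝ} (hα : 0 < α) (hX : 0 < X) :
    IntegrableOn (fun s : ℝ => min 1 (s ^ y) * (X - s) ^ (α - 1)) (Ioc 0 X) := by
  refine Integrable.mono' (nmg_one hα hX).1 ?_ ?_
  · have h : Measurable (fun s : ℝ => min 1 (s ^ y) * (X - s) ^ (α - 1)) := by fun_prop
    exact h.aestronglyMeasurable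
  · refine (ae_restrict_iff' measurableSet_Ioc).2 (Filter.Eventually.of_forall fun s hs => ?_)
    have h1 : (0 : ℝ) ≤ min 1 (s ^ y) := le_min zero_le_one (rpow_nonneg hs.1.le _)
    have h2 : (0 : ℝ) ≤ (X - s) ^ (α - 1) := rpow_nonneg (by linarith [hs.2]) _
    rw [Real.norm_of_nonneg (mul_nonneg h1 h2)]
    exact mul_le_of_le_one_left h2 (min_le_left _ _)

lemma nmg_low {α y : ℝ} (hα : 0 < α) (hy : 0 ≤ y) :
    3 ^ α / α ≤ ∫ s in Ioc (0 : ℝ) 4, min 1 (s ^ y) * (4 - s) ^ (α - 1) := by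
  have h1 : ∫ s in Ioc (1 : ℝ) 4, min 1 (s ^ y) * (4 - s) ^ (α - 1) ≤
      ∫ s in Ioc (0 : ℝ) 4, min 1 (s ^ y) * (4 - s) ^ (α - 1) := by
    refine setIntegral_mono_set (nmg_low_int hα (by norm_num)) ?_ ?_
    · refine (ae_restrict_iff' measurableSet_Ioc).2 (Filter.Eventually.of_forall fun s hs => ?_)
      have h1 : (0 : ℝ) ≤ min 1 (s ^ y) := le_min zero_le_one (rpow_nonneg hs.1.le _)
      have h2 : (0 : ℝ) ≤ (4 - s) ^ (α - 1) := rpow_nonneg (by linarith [hs.2]) _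
      exact mul_nonneg h1 h2
    · exact (Ioc_subset_Ioc_left zero_le_one).eventuallyLE
  refine le_trans (le_of_eq ?_) h1
  have h2 : ∫ s in Ioc (1 : ℝ) 4, min 1 (s ^ y) * (4 - s) ^ (α - 1) =
      ∫ s in Ioc (1 : ℝ) 4, (4 - s) ^ (α - 1) := by
    refine setIntegral_congr_fun measurableSet_Ioc fun s hs => ?_
    rw [min_eq_left (one_le_rpow hs.1.le hy), one_mul]
  rw [h2, ← intervalIntegral.integral_of_le (by norm_num)]
  have h3 := intervalIntegral.integral_comp_sub_left (a := 1) (b := 4)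
    (fun u : ℝ => u ^ (α - 1)) 4
  rw [h3, integral_rpow (Or.inl (by linarith))]
  have e1 : (4 : ℝ) - 4 = 0 := by norm_num
  have e2 : (4 : ℝ) - 1 = 3 := by norm_num
  rw [e1, e2, sub_add_cancel, zero_rpow hα.ne', sub_zero]

/-- Gautschi type bound. -/
lemma nmg_gam {x : ℝ} (hx : 0 < x) : Gamma (x + 1 / 2) ≤ √x * Gamma x := by
  have h := Real.Gamma_mul_add_mul_le_rpow_Gamma_mul_rpow_Gamma (s := x) (t := x + 1)
    (a := 1 / 2) (b := 1 / 2) hx (by linarith) (by norm_num) (by norm_num) (by norm_num)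
  have e1 : 1 / 2 * x + 1 / 2 * (x + 1) = x + 1 / 2 := by ring
  have hG := (Gamma_pos_of_pos hx).le
  rw [e1, Real.Gamma_add_one hx.ne', ← mul_rpow hG (mul_nonneg hx.le hG)] at h
  refine le_trans h (le_of_eq ?_)
  have e2 : Gamma x * (x * Gamma x) = x * Gamma x ^ 2 := by ring
  rw [e2, ← sqrt_eq_rpow, sqrt_mul hx.le, sqrt_sq hG]

theorem pf_nmg : T_NMG := by
  intro d m hd hmd
  have hm : 1 ≤ m := by omega
  have hdm : (d : ℝ) = m + 2 := by
    rw [← hmd]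
    push_cast
    ring
  set α : ℝ := (m : ℝ) / 2 with hα
  have hα0 : 0 < α := by
    have : (1 : ℝ) ≤ m := by exact_mod_cast hm
    rw [hα]
    linarith
  have hy : (d : ℝ) / 2 = α + 1 := by rw [hdm, hα]; ring
  have hL := nmg_low (α := α) (y := (d : ℝ) / 2) hα0 (by positivity)
  -- the power
  have hpow : √(4 / 3) ^ m = ((4 : ℝ) / 3) ^ α := by
    rw [sqrt_eq_rpow, ← rpow_natCast, ← rpow_mul (by norm_num), hα]
    congr 1
    ring
  have hpow2 : ((4 : ℝ) / 3) ^ α * (3 ^ α / α) = 4 ^ α / α := by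
    rw [div_rpow (by norm_num) (by norm_num)]
    have : (3 : ℝ) ^ α ≠ 0 := (rpow_pos_of_pos (by norm_num) _).ne'
    field_simp
  have hS : (1 : ℝ) ≤ √(2 * π * (d + 1)) := by
    rw [one_le_sqrt]
    have h1 : (3 : ℝ) < π := pi_gt_three
    have h2 : (0 : ℝ) ≤ d := Nat.cast_nonneg _
    nlinarith
  have hS0 : (0 : ℝ) ≤ √(2 * π * (d + 1)) := sqrt_nonneg _
  have hP0 : (0 : ℝ) ≤ ((4 : ℝ) / 3) ^ α := rpow_nonneg (by norm_num) _
  have hB0 : (0 : ℝ) ≤ (4 : ℝ) ^ α / α := div_nonneg (rpow_nonneg (by norm_num) _) hα0.le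
  have hgoal : ∀ Z : ℝ, Z ≤ √(2 * π * (d + 1)) * (4 ^ α / α) →
      Z ≤ √(2 * π * (d + 1)) * √(4 / 3) ^ m *
        ∫ s in Ioc (0 : ℝ) 4, min 1 (s ^ ((d : ℝ) / 2)) * (4 - s) ^ (α - 1) := by
    intro Z hZ
    refine le_trans hZ ?_
    rw [hpow, ← hpow2, mul_assoc (√(2 * π * (d + 1)))]
    exact mul_le_mul_of_nonneg_left (mul_le_mul_of_nonneg_left hL hP0) hS0
  constructor
  · refine hgoal _ ?_
    have h1 : ∫ s in Ioc (0 : ℝ) 4, (1 : ℝ) * (4 - s) ^ (α - 1) = 4 ^ α / α := by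
      simp only [one_mul]
      exact (nmg_one hα0 (by norm_num)).2
    rw [h1]
    exact le_mul_of_one_le_left hB0 hS
  · refine hgoal _ ?_
    have h1 := beta_val (a := (d : ℝ) / 2 + 1) (b := α) (X := 4) (by positivity) hα0 (by norm_num)
    rw [add_sub_cancel_right] at h1
    rw [h1]
    set y : ℝ := (d : ℝ) / 2 with hyd
    have hy0 : 0 < y := by
      have : (3 : ℝ) ≤ d := by exact_mod_cast hd
      rw [hyd]
      linarith
    have e1 : y + 1 + α = 2 * y := by rw [hy]; ring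
    have e2 : α * Gamma α = Gamma y := by rw [← Real.Gamma_add_one hα0.ne', hy]
    have e3 := Real.Gamma_mul_Gamma_add_half_of_pos hy0
    have e4 := nmg_gam (x := y + 1 / 2) (by positivity)
    have e5 : y + 1 / 2 + 1 / 2 = y + 1 := by ring
    rw [e5] at e4
    have hG1 : 0 < Gamma (y + 1 / 2) := Gamma_pos_of_pos (by positivity)
    have hG2 : 0 < Gamma (2 * y) := Gamma_pos_of_pos (by positivity)
    have hG3 : 0 < Gamma y := Gamma_pos_of_pos hy0
    have hG4 : 0 < Gamma α := Gamma_pos_of_pos hα0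
    have hsq : √(2 * π * (d + 1)) = 2 * √π * √(y + 1 / 2) := by
      have : 2 * π * ((d : ℝ) + 1) = (2 ^ 2 * π) * (y + 1 / 2) := by
        rw [hyd]
        ring
      rw [this, sqrt_mul (by positivity), sqrt_mul (by positivity), sqrt_sq (by norm_num)]
    have e6 : (4 : ℝ) ^ (y + 1 + α - 1) = 4 ^ α * 4 ^ y := by
      rw [← rpow_add (by norm_num)]
      congr 1
      ring
    have e7 : (4 : ℝ) ^ y = 2 ^ (2 * y) := by
      rw [rpow_mul (by norm_num)]
      norm_num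
    have e8 : (2 : ℝ) ^ (1 - 2 * y) * 2 ^ (2 * y) = 2 := by
      rw [← rpow_add (by norm_num)]
      norm_num
    -- Gamma (2 y) * √π * 2 = Gamma y * Gamma (y + 1/2) * 4 ^ y
    have e9 : Gamma (2 * y) * √π * 2 = Gamma y * Gamma (y + 1 / 2) * 4 ^ y := by
      rw [e3, e7]
      calc Gamma (2 * y) * √π * 2 = Gamma (2 * y) * √π * (2 ^ (1 - 2 * y) * 2 ^ (2 * y)) := by
            rw [e8]
        _ = _ := by ring
    rw [e6, e1, hsq]
    have hmain : (4 : ℝ) ^ y * (Gamma (y + 1) * Gamma α / Gamma (2 * y)) ≤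
        2 * √π * √(y + 1 / 2) / α := by
      rw [← mul_div_assoc, div_le_div_iff₀ hG2 hα0]
      calc (4 : ℝ) ^ y * (Gamma (y + 1) * Gamma α) * α
          = 4 ^ y * Gamma y * Gamma (y + 1) := by rw [← e2]; ring
        _ ≤ 4 ^ y * Gamma y * (√(y + 1 / 2) * Gamma (y + 1 / 2)) :=
            mul_le_mul_of_nonneg_left e4 (by positivity)
        _ = (Gamma y * Gamma (y + 1 / 2) * 4 ^ y) * √(y + 1 / 2) := by ring
        _ = 2 * √π * √(y + 1 / 2) * Gamma (2 * y) := by rw [← e9]; ring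
    calc (4 : ℝ) ^ α * 4 ^ y * (Gamma (y + 1) * Gamma α / Gamma (2 * y))
        = 4 ^ α * (4 ^ y * (Gamma (y + 1) * Gamma α / Gamma (2 * y))) := by ring
      _ ≤ 4 ^ α * (2 * √π * √(y + 1 / 2) / α) :=
          mul_le_mul_of_nonneg_left hmain (rpow_nonneg (by norm_num) _)
      _ = 2 * √π * √(y + 1 / 2) * (4 ^ α / α) := by ring

end Pool.Agent.H67.PK
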