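import Pool.Agent.H97.PK.Targets2

set_option autoImplicit false

namespace Pool.Agent.H67.PK

open Pool.Agent.H97.PK MeasureTheory Set Metric

theorem pf_rd1 : T_RD1 := by
  intro m hm φ hφ x hx
  have hm0 : m ≠ 0 := by omega
  have : Nonempty (Fin m) := ⟨⟨0, by omega⟩⟩
  have : Nontrivial (E m) := inferInstance
  unfold hh
  rw [← integral_indicator measurableSet_closedBall]
  have h1 : (fun z : E m => (closedBall (0 : E m) (√x)).indicator
      (fun z => φ (x - ‖z‖ ^ 2)) z) =
      fun z : E m => (fun t : ℝ => (Iic (√x)).indicator (fun t => φ (x - t ^ 2)) t) ‖z‖ := by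
    funext z
    by_cases hz : z ∈ closedBall (0 : E m) (√x)
    · rw [indicator_of_mem hz]
      have hz' : ‖z‖ ∈ Iic (√x) := by simpa using hz
      simp only [indicator_of_mem hz']
    · rw [indicator_of_notMem hz]
      have hz' : ‖z‖ ∉ Iic (√x) := by simpa using hz
      simp only [indicator_of_notMem hz']
  rw [h1, integral_fun_norm_addHaar]
  have hdim : Module.finrank ℝ (E m) = m := by simp
  rw [hdim]
  -- the one dimensional integral
  set g : ℝ → ℝ := fun y => (Iic x).indicator (fun y => φ (x - y) * y ^ ((m : ℝ) / 2 - 1) / 2) y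
    with hg
  have h2 := integral_comp_rpow_Ioi g (two_ne_zero (α := ℝ))
  have h3 : ∫ y in Ioi (0 : ℝ), y ^ (m - 1) • (Iic (√x)).indicator (fun t => φ (x - t ^ 2)) y =
      ∫ y in Ioi (0 : ℝ), (|(2 : ℝ)| * y ^ ((2 : ℝ) - 1)) • g (y ^ (2 : ℝ)) := by
    refine setIntegral_congr_fun measurableSet_Ioi fun y hy => ?_
    have hy0 : (0 : ℝ) < y := hy
    have e1 : (2 : ℝ) - 1 = 1 := by norm_num
    simp only [smul_eq_mul, hg, e1, Real.rpow_one, Real.rpow_two]
    by_cases h : y ≤ √x
    · have h' : y ^ 2 ≤ x := by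
        rw [← Real.sqrt_le_sqrt_iff hx.le, Real.sqrt_sq hy0.le]
        exact h
      rw [indicator_of_mem (show y ∈ Iic (√x) from h), indicator_of_mem (show y ^ 2 ∈ Iic x from h')]
      have e2 : (y ^ 2) ^ ((m : ℝ) / 2 - 1) * y ^ 2 = y ^ (m - 1) * y := by
        rw [← pow_succ, Nat.sub_add_cancel hm]
        have : (y ^ 2) ^ ((m : ℝ) / 2 - 1) = y ^ ((m : ℝ) - 2) := by
          rw [← Real.rpow_natCast y 2, ← Real.rpow_mul hy0.le]
          congr 1
          push_cast
          ring
        rw [this, ← Real.rpow_natCast y 2, ← Real.rpow_add hy0, ← Real.rpow_natCast]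
        congr 1
        push_cast
        ring
      have e3 : (y ^ 2) ^ ((m : ℝ) / 2 - 1) * y = y ^ (m - 1) := by
        have h4 : ((y ^ 2) ^ ((m : ℝ) / 2 - 1) * y) * y = y ^ (m - 1) * y := by
          rw [← e2]
          ring
        exact mul_right_cancel₀ hy0.ne' h4
      rw [← e3, abs_of_pos (by norm_num : (0 : ℝ) < 2)]
      ring
    · have h' : ¬ y ^ 2 ≤ x := by
        rw [not_le] at h ⊢
        exact (Real.sqrt_lt' hy0).1 h
      rw [indicator_of_notMem (show y ∉ Iic (√x) from h),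
        indicator_of_notMem (show y ^ 2 ∉ Iic x from h'), mul_zero, mul_zero]
  have h4 : ∫ y in Ioi (0 : ℝ), g y = (1 / 2) * ∫ s in Ioc (0 : ℝ) x, φ s *
      (x - s) ^ ((m : ℝ) / 2 - 1) := by
    rw [hg, setIntegral_indicator measurableSet_Iic]
    have e1 : Ioi (0 : ℝ) ∩ Iic x = Ioc 0 x := rfl
    rw [e1, ← intervalIntegral.integral_of_le hx.le, ← intervalIntegral.integral_of_le hx.le,
      intervalIntegral.integral_div]
    have h5 := intervalIntegral.integral_comp_sub_left (a := 0) (b := x)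
      (fun s => φ s * (x - s) ^ ((m : ℝ) / 2 - 1)) x
    rw [sub_self, sub_zero] at h5
    rw [← h5]
    simp only [sub_sub_cancel]
    ring
  rw [h3, h2, h4]
  simp only [smul_eq_mul, nsmul_eq_mul, Measure.real]
  ring

end Pool.Agent.H67.PK
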